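import Pool.Agent.H844Z.AL.Mid

set_option autoImplicit false

namespace Pool.Agent.Results.MP_7090ba_al.ASolvableOdd

open Pool.Agent

/-- Every finite solvable automorphic loop of odd order greater than one has a nontrivial middle
nucleus.  The loop is given by its left and right translations `L x`, `R x`; it is automorphic
when every element of the multiplication group fixing `e` is an automorphism. -/
theorem result :
    ∀ (Q : Type) [Finite Q] (mul : Q → Q → Q) (e : Q) (L R : Q → Equiv.Perm Q),
      (∀ x, mul e x = x ∧ mul x e = x) →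
      (∀ x y, L x y = mul x y) → (∀ x y, R x y = mul y x) →
      (∀ g ∈ Subgroup.closure (Set.range L ∪ Set.range R), g e = e →
        ∀ x y, g (mul x y) = mul (g x) (g y)) →
      (∃ (n : ℕ) (S : ℕ → Set Q), S 0 = {e} ∧ S n = Set.univ ∧
        ∀ i < n, e ∈ S i ∧ (∀ a ∈ S i, ∀ b ∈ S i, mul a b ∈ S i) ∧
          ∀ x ∈ S (i + 1), ∀ y ∈ S (i + 1), ∀ z ∈ S (i + 1),
            (∃ m ∈ S i, mul (mul x y) z = mul (mul x (mul y z)) m) ∧
            (∃ m ∈ S i, mul x y = mul (mul y x) m)) →
      Odd (Nat.card Q) → 1 < Nat.card Q →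
      ∃ a : Q, a ≠ e ∧ ∀ x y, mul (mul x a) y = mul x (mul a y) := by
  intro Q _ mul e L R h1 hL hR hA hS hodd hcard
  classical
  have bL : ∀ a, Function.Bijective (fun x => mul a x) := fun a => by
    have : (fun x => mul a x) = L a := funext (fun x => (hL a x).symm)
    rw [this]; exact (L a).bijective
  have bR : ∀ a, Function.Bijective (fun x => mul x a) := fun a => by
    have : (fun x => mul x a) = R a := funext (fun x => (hR a x).symm)
    rw [this]; exact (R a).bijective
  have mL : ∀ a, L a ∈ Subgroup.closure (Set.range L ∪ Set.range R) :=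
    fun a => Subgroup.subset_closure (Or.inl ⟨a, rfl⟩)
  have mR : ∀ a, R a ∈ Subgroup.closure (Set.range L ∪ Set.range R) :=
    fun a => Subgroup.subset_closure (Or.inr ⟨a, rfl⟩)
  have sp : ∀ a z, mul a ((L a)⁻¹ z) = z := fun a z => by rw [← hL]; simp
  letI : H284Z.ALoop Q :=
    { mul := mul
      one := e
      one_mul := fun x => (h1 x).1
      mul_one := fun x => (h1 x).2
      bijL := bL
      bijR := bR
      autL := by
        intro x y u v a b h2 h3
        have s1 : ∀ z, mul (mul x y) (((L (mul x y))⁻¹ * L x * L y) z) = mul x (mul y z) :=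
          fun z => by simp only [Equiv.Perm.mul_apply]; rw [sp, hL, hL]
        have k := hA _ (mul_mem (mul_mem (inv_mem (mL (mul x y))) (mL x)) (mL y))
          ((bL (mul x y)).1 (by
            show mul _ _ = mul _ _
            rw [s1, (h1 y).2, (h1 _).2])) u v
        have ea : ((L (mul x y))⁻¹ * L x * L y) u = a := (bL (mul x y)).1 ((s1 u).trans h2.symm)
        have eb : ((L (mul x y))⁻¹ * L x * L y) v = b := (bL (mul x y)).1 ((s1 v).trans h3.symm)
        show mul (mul x y) (mul a b) = mul x (mul y (mul u v))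
        rw [← ea, ← eb, ← k, s1]
      autT := by
        intro x u v a b h2 h3
        have s1 : ∀ z, mul x (((L x)⁻¹ * R x) z) = mul z x :=
          fun z => by simp only [Equiv.Perm.mul_apply]; rw [sp, hR]
        have k := hA _ (mul_mem (inv_mem (mL x)) (mR x))
          ((bL x).1 (by
            show mul _ _ = mul _ _
            rw [s1, (h1 x).1, (h1 x).2])) a b
        have ea : ((L x)⁻¹ * R x) a = u := (bL x).1 ((s1 a).trans h2)
        have eb : ((L x)⁻¹ * R x) b = v := (bL x).1 ((s1 b).trans h3)
        show mul (mul a b) x = mul x (mul u v)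
        rw [← ea, ← eb, ← k, s1] }
  have hSolv : H284Z.Solv Q := by
    obtain ⟨n, S, h0, hn, h⟩ := hS
    let T : ℕ → Submonoid Q := fun i =>
      if hi : i < n then
        { carrier := S i
          one_mem' := (h i hi).1
          mul_mem' := fun {a b} ha hb => (h i hi).2.1 a ha b hb }
      else ⊤
    have hT : ∀ i ≤ n, ∀ x, x ∈ T i ↔ x ∈ S i := by
      intro i hi x
      by_cases hi' : i < n
      · simp only [T, dif_pos hi']; rfl
      · have : i = n := by omega
        subst this
        simp only [T, dif_neg hi', hn]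
        simp
    refine ⟨n, T, ?_, ?_, ?_⟩
    · ext x
      rw [hT 0 (Nat.zero_le n), h0]; rfl
    · simp [T]
    · intro i hi x hx y hy z hz
      rw [hT _ (by omega)] at hx hy hz
      obtain ⟨⟨m, hm, e1⟩, ⟨m', hm', e2⟩⟩ := (h i hi).2.2 x hx y hy z hz
      exact ⟨⟨m, (hT i hi.le m).2 hm, e1⟩, ⟨m', (hT i hi.le m').2 hm', e2⟩⟩
  haveI : Nontrivial Q := Finite.one_lt_card_iff_nontrivial.1 hcard
  exact H844Z.AL.middle Q hSolv hodd

end Pool.Agent.Results.MP_7090ba_al.ASolvableOdd
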